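import Mathlib

namespace Pool.Agent.Results.MP_e14bb7_co.Main

open MvPolynomial Finset

/-- uniquely `k`-list colourable, with colours from a type `α` -/
def ULC {V : Type} (G : SimpleGraph V) (α : Type) (k : ℕ) : Prop :=
  ∃ S : V → Finset α, (∀ v, (S v).card = k) ∧
    ∃! c : V → α, (∀ v, c v ∈ S v) ∧ ∀ u v, G.Adj u v → c u ≠ c v

variable {V R : Type} [Fintype V] [DecidableEq V] [CommRing R]

lemma der_zero {ι : Type} (s : Finset ι) (a b : ι → V) :
    ∑ v, pderiv v (∏ e ∈ s, (X (a e) - X (b e) : MvPolynomial V R)) = 0 := by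
  classical
  induction s using Finset.induction_on with
  | empty => simp
  | insert e s he ih =>
    rw [prod_insert he]
    simp only [Derivation.leibniz, smul_eq_mul, sum_add_distrib, ← mul_sum, ih, map_sub,
      pderiv_X, sum_sub_distrib]
    simp [Pi.single_apply]

lemma coeff_zero' [Nonempty V] (j : ℕ) (hk : ((j + 2 : ℕ) : R) = 0) (P : MvPolynomial V R)
    (hP : ∑ v, pderiv v P = 0) :
    coeff (Finsupp.equivFunOnFinite.symm (fun _ : V => j + 1)) P = 0 := by
  obtain ⟨v⟩ := ‹Nonempty V›
  have h := congrArg (coeff (Finsupp.equivFunOnFinite.symm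
    (fun u : V => if u = v then j else j + 1))) hP
  rw [coeff_sum, Finset.sum_eq_single v, coeff_pderiv] at h
  · have e : Finsupp.equivFunOnFinite.symm (fun u : V => if u = v then j else j + 1) +
        Finsupp.single v 1 = Finsupp.equivFunOnFinite.symm (fun _ : V => j + 1) := by
      ext u
      by_cases hu : u = v
      · subst hu; simp
      · simp [hu]
    rw [e] at h
    simp only [Finsupp.equivFunOnFinite_symm_apply_apply, if_true, coeff_zero] at h
    push_cast at hk
    linear_combination coeff (Finsupp.equivFunOnFinite.symm (fun _ : V => j + 1)) P * hk - h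
  · intro u _ hu
    rw [coeff_pderiv]
    simp only [Finsupp.equivFunOnFinite_symm_apply_apply, if_neg hu]
    push_cast at hk ⊢
    rw [show (j : R) + 1 + 1 = 0 by linear_combination hk, mul_zero]
  · simp

lemma deg_lin {ι : Type} (s : Finset ι) (f : ι → MvPolynomial V R)
    (hf : ∀ e, (f e).totalDegree ≤ 1) : (∏ e ∈ s, f e).totalDegree ≤ s.card := by
  refine (totalDegree_finset_prod s f).trans ?_
  simpa using Finset.sum_le_sum (s := s) fun e _ => hf e

lemma lead [Nontrivial R] (v : V) (s : Finset R) : ∃ r : MvPolynomial V R,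
    ∏ a ∈ s, (X v - C a : MvPolynomial V R) = X v ^ s.card + r ∧
      (r = 0 ∨ r.totalDegree < s.card) := by
  classical
  induction s using Finset.induction_on with
  | empty => exact ⟨0, by simp, Or.inl rfl⟩
  | insert a s ha ih =>
    obtain ⟨r, h1, h2⟩ := ih
    refine ⟨(X v - C a) * r - C a * X v ^ s.card, by
      rw [prod_insert ha, h1, card_insert_of_notMem ha]; ring, Or.inr ?_⟩
    rw [card_insert_of_notMem ha, Nat.lt_succ_iff]
    refine (totalDegree_sub _ _).trans (max_le ?_ ?_)
    · rcases h2 with rfl | h2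
      · simp
      · refine (totalDegree_mul _ _).trans ?_
        have : (X v - C a : MvPolynomial V R).totalDegree ≤ 1 :=
          (totalDegree_sub _ _).trans (by simp)
        omega
    · refine (totalDegree_mul _ _).trans ?_
      simp [totalDegree_X_pow]

lemma lead2 [Nontrivial R] (d : ℕ) (T : V → Finset R) (hT : ∀ v, (T v).card = d) (s : Finset V) :
    ∃ r : MvPolynomial V R, ∏ v ∈ s, ∏ a ∈ T v, (X v - C a : MvPolynomial V R) =
      ∏ v ∈ s, X v ^ d + r ∧ (r = 0 ∨ r.totalDegree < s.card * d) := by
  induction s using Finset.induction_on with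
  | empty => exact ⟨0, by simp, Or.inl rfl⟩
  | insert v s hv ih =>
    obtain ⟨r, h1, h2⟩ := ih
    obtain ⟨q, h3, h4⟩ := lead v (T v)
    rw [hT] at h3 h4
    have hs : (∏ v ∈ s, X v ^ d : MvPolynomial V R).totalDegree ≤ s.card * d := by
      refine (totalDegree_finset_prod s _).trans ?_
      simp [totalDegree_X_pow]
    refine ⟨X v ^ d * r + q * (∏ v ∈ s, X v ^ d + r), by
      rw [prod_insert hv, prod_insert hv, h1, h3]; ring, ?_⟩
    rw [card_insert_of_notMem hv, add_mul, one_mul]
    have a1 := totalDegree_mul (X v ^ d) r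
    have a2 := totalDegree_mul q (∏ v ∈ s, X v ^ d + r)
    have a3 := totalDegree_add (∏ v ∈ s, X v ^ d) r
    have a4 := totalDegree_add (X v ^ d * r) (q * (∏ v ∈ s, X v ^ d + r))
    rw [totalDegree_X_pow] at a1
    rcases h2 with rfl | h2 <;> rcases h4 with rfl | h4
    · simp
    · right; simp only [mul_zero, zero_add, add_zero] at a2 ⊢; omega
    · right; simp only [zero_mul, add_zero]; omega
    · right; omega

theorem result (k : ℕ) (hk : 2 ≤ k) (V : Type) [Fintype V] [Nonempty V] (G : SimpleGraph V)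
    (h : 2 * G.edgeSet.ncard = (2 * k - 2) * Fintype.card V) (α : Type) : ¬ ULC G α k := by
  classical
  rintro ⟨S, hS, c, ⟨hc1, hc2⟩, hu⟩
  obtain ⟨j, rfl⟩ : ∃ j, k = j + 2 := ⟨k - 2, by omega⟩
  obtain ⟨p, hp, hpk⟩ := Nat.exists_prime_and_dvd (show j + 2 ≠ 1 by omega)
  haveI := Fact.mk hp
  set R := Polynomial (ZMod p)
  have hk0 : ((j + 2 : ℕ) : R) = 0 := (CharP.cast_eq_zero_iff R p _).2 hpk
  let T := univ.biUnion S
  let f : α → R := fun a => if h : a ∈ T then Infinite.natEmbedding R (T.equivFin ⟨a, h⟩) else 0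
  have hT : ∀ {v a}, a ∈ S v → a ∈ T := fun h => mem_biUnion.2 ⟨_, mem_univ _, h⟩
  have hf : ∀ {a b}, a ∈ T → b ∈ T → f a = f b → a = b := by
    intro a b ha hb e
    simp only [f, ha, hb, dif_pos] at e
    have := T.equivFin.injective (Fin.ext ((Infinite.natEmbedding R).injective e))
    exact congrArg Subtype.val this
  have hcard : ∀ v, ((S v).image f).card = j + 2 := fun v => by
    rw [card_image_of_injOn fun a ha b hb => hf (hT ha) (hT hb), hS]
  set P : MvPolynomial V R := ∏ e ∈ G.edgeFinset, (X e.out.1 - X e.out.2) with hP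
  set Q : MvPolynomial V R := ∏ v, ∏ a ∈ ((S v).image f).erase (f (c v)), (X v - C a) with hQ
  set t : V →₀ ℕ := Finsupp.equivFunOnFinite.symm (fun _ : V => j + 1) with ht
  have hE : G.edgeFinset.card = Fintype.card V * (j + 1) := by
    rw [← SimpleGraph.coe_edgeFinset, Set.ncard_coe_finset,
      show 2 * (j + 2) - 2 = 2 * (j + 1) by omega] at h
    nlinarith
  have htd : t.degree = Fintype.card V * (j + 1) := by
    rw [Finsupp.degree_eq_sum]; simp [ht]
  have hout : ∀ e ∈ G.edgeFinset, G.Adj e.out.1 e.out.2 := fun e he => by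
    rw [← G.mem_edgeSet, show s(e.out.1, e.out.2) = e from e.out_eq]
    simpa using he
  have cP : coeff t P = 0 := coeff_zero' j hk0 P (der_zero _ _ _)
  obtain ⟨r, hr, hr2⟩ := lead2 (j + 1) (fun v => ((S v).image f).erase (f (c v)))
    (fun v => by rw [card_erase_of_mem (mem_image_of_mem f (hc1 v)), hcard]; rfl) univ
  have hm : (∏ v, X v ^ (j + 1) : MvPolynomial V R) = monomial t 1 := by
    rw [monomial_eq, Finsupp.prod_fintype _ _ (by simp)]; simp [ht]
  have cr : coeff t r = 0 := by
    rcases hr2 with rfl | hr2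
    · simp
    · refine coeff_eq_zero_of_totalDegree_lt ?_
      rw [card_univ, ← htd] at hr2
      exact hr2
  have cQ : coeff t Q = 1 := by rw [hQ, hr, hm, coeff_add, cr]; simp
  have dP : P.totalDegree ≤ t.degree := by
    rw [htd, ← hE]
    exact deg_lin _ _ fun e => (totalDegree_sub _ _).trans (by simp)
  have dQ : Q.totalDegree ≤ t.degree := by
    rw [hQ, hr, hm]
    refine (totalDegree_add _ _).trans (max_le (totalDegree_monomial_le _ _) ?_)
    rcases hr2 with rfl | hr2
    · simp
    · rw [card_univ, ← htd] at hr2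
      exact hr2.le
  have eP : eval (fun v => f (c v)) P ≠ 0 := by
    rw [hP, map_prod, prod_ne_zero_iff]
    intro e he
    simp only [map_sub, eval_X, sub_ne_zero]
    exact fun h => hc2 _ _ (hout e he) (hf (hT (hc1 _)) (hT (hc1 _)) h)
  set W := C (eval (fun v => f (c v)) Q) * P - C (eval (fun v => f (c v)) P) * Q with hW
  have cW : coeff t W ≠ 0 := by
    rw [hW, coeff_sub, coeff_C_mul, coeff_C_mul, cP, cQ]
    simpa using eP
  have dW : W.totalDegree = t.degree := by
    refine le_antisymm ((totalDegree_sub _ _).trans (max_le ?_ ?_))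
      (le_totalDegree (mem_support_iff.2 cW))
    · exact (totalDegree_mul _ _).trans (by simpa using dP)
    · exact (totalDegree_mul _ _).trans (by simpa using dQ)
  obtain ⟨x, hx, hx2⟩ := combinatorial_nullstellensatz_exists_eval_nonzero W t cW dW
    (fun v => (S v).image f) (fun v => by rw [hcard]; simp [ht])
  choose g hg hg2 using fun v => mem_image.1 (hx v)
  by_cases hgc : g = c
  · have : x = fun v => f (c v) := funext fun v => by rw [← hg2, hgc]
    apply hx2
    rw [hW, this]
    simp only [map_sub, map_mul, eval_C]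
    ring
  · have e1 : eval x P = 0 := by
      by_contra h1
      refine hgc (hu g ⟨hg, fun u v huv e => h1 ?_⟩)
      rw [hP, map_prod]
      refine prod_eq_zero (i := s(u, v)) (by simpa using huv) ?_
      have := (show s((s(u, v)).out.1, (s(u, v)).out.2) = s(u, v) from (s(u, v)).out_eq)
      simp only [map_sub, eval_X, ← hg2]
      rcases Sym2.eq_iff.1 this with ⟨h2, h3⟩ | ⟨h2, h3⟩ <;> rw [h2, h3, e, sub_self]
    have e2 : eval x Q = 0 := by
      obtain ⟨v, hv⟩ := Function.ne_iff.1 hgc
      rw [hQ, map_prod]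
      refine prod_eq_zero (mem_univ v) ?_
      rw [map_prod]
      refine prod_eq_zero (i := x v) (mem_erase.2 ⟨?_, hx v⟩) (by simp)
      rw [← hg2]
      exact fun h => hv (hf (hT (hg v)) (hT (hc1 v)) h)
    apply hx2
    rw [hW]
    simp only [map_sub, map_mul, eval_C, e1, e2, mul_zero, sub_self]

end Pool.Agent.Results.MP_e14bb7_co.Main
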